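import Pool.Agent.X247.Fx.Auto

set_option autoImplicit false

/-!
# The word with prefixes `x₁ = 12`, `x_{n+1} = x_n x_n x_nᴿ x_nᴿ 2` is not `k`-automatic

`xw n` is the word `x_{n+1}`.  There is exactly one infinite sequence that has all these words as
prefixes, and for no `k ≥ 2` is it `k`-automatic: no finite automaton with output computes it from
the base-`k` digits (read from either end), and its `k`-kernel is infinite.
-/

namespace Pool.Agent.Results.MP_ad6ded_lc.NotAutomatic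

open Pool.Agent.X247.Fx

/-- `xw 0 = x₁ = 12` and `xw (n + 1) = xw n · xw n · (xw n)ᴿ · (xw n)ᴿ · 2`. -/
def xw : ℕ → List ℕ
  | 0 => [1, 2]
  | n + 1 => xw n ++ xw n ++ (xw n).reverse ++ (xw n).reverse ++ [2]

/-- `a` is the infinite word: every `xw n` is a prefix of `a`. -/
def IsX (a : ℕ → ℕ) : Prop := ∀ n i, (h : i < (xw n).length) → a i = (xw n)[i]

/-- A deterministic finite automaton with output computes `a n` from the base-`k` digits of `n`,
the most significant digit first. -/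
def AutomaticMsd (k : ℕ) (a : ℕ → ℕ) : Prop :=
  ∃ (σ : Type) (_ : Finite σ) (δ : σ → ℕ → σ) (s : σ) (out : σ → ℕ),
    ∀ n, a n = out ((Nat.digits k n).reverse.foldl δ s)

/-- The same with the least significant digit first. -/
def AutomaticLsd (k : ℕ) (a : ℕ → ℕ) : Prop :=
  ∃ (σ : Type) (_ : Finite σ) (δ : σ → ℕ → σ) (s : σ) (out : σ → ℕ),
    ∀ n, a n = out ((Nat.digits k n).foldl δ s)

/-- The `k`-kernel of `a`. -/
def kernel (k : ℕ) (a : ℕ → ℕ) : Set (ℕ → ℕ) :=
  {s | ∃ e j : ℕ, j < k ^ e ∧ s = fun n => a (k ^ e * n + j)}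

theorem pigeon {τ : Type*} [Finite τ] {k : ℕ} (hk : 2 ≤ k) (f : ℕ → ℕ → τ) :
    ∃ q j p, 1 ≤ p ∧ j + p < k ^ q ∧ f q j = f q (j + p) := by
  have := Fintype.ofFinite τ
  let q := Fintype.card τ
  have hq : Fintype.card τ < Fintype.card (Fin (k ^ q)) := by
    rw [Fintype.card_fin]
    exact Nat.lt_pow_self (by omega)
  obtain ⟨x, y, hxy, h⟩ := Fintype.exists_ne_map_eq_of_card_lt
    (fun j : Fin (k ^ q) => f q j) hq
  have hne : (x : ℕ) ≠ y := fun h => hxy (Fin.ext h)
  rcases lt_or_gt_of_ne hne with h1 | h1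
  · refine ⟨q, x, y - x, by omega, ?_, ?_⟩
    · have := y.2; omega
    · rw [Nat.add_sub_cancel' h1.le]; exact h
  · refine ⟨q, y, x - y, by omega, ?_, ?_⟩
    · have := x.2; omega
    · rw [Nat.add_sub_cancel' h1.le]; exact h.symm

/-- the digits of `j`, padded to length `q` -/
def pad (k q j : ℕ) : List ℕ :=
  Nat.digits k j ++ List.replicate (q - (Nat.digits k j).length) 0

theorem digits_pad {k q i j : ℕ} (hk : 2 ≤ k) (hi : 1 ≤ i) (hj : j < k ^ q) :
    Nat.digits k (k ^ q * i + j) = pad k q j ++ Nat.digits k i := by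
  have hl : (Nat.digits k j).length ≤ q := (Nat.digits_length_le_iff (by omega) j).2 hj
  have h := Nat.digits_append_zeroes_append_digits (b := k)
    (k := q - (Nat.digits k j).length) (m := i) (n := j) (by omega) hi
  rw [Nat.add_sub_cancel' hl] at h
  unfold pad
  rw [h, add_comm]

theorem rep_of_lsd {k : ℕ} {a : ℕ → ℕ} (hk : 2 ≤ k) (h : AutomaticLsd k a) : Rep k a := by
  obtain ⟨σ, hσ, δ, s, out, h⟩ := h
  obtain ⟨q, j, p, hp, hj, hf⟩ := pigeon hk (fun q j => (pad k q j).foldl δ s)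
  refine ⟨q, j, p, hp, fun i hi => ?_⟩
  rw [h, h, digits_pad hk hi (by omega), digits_pad hk hi hj, List.foldl_append,
    List.foldl_append, hf]

theorem rep_of_msd {k : ℕ} {a : ℕ → ℕ} (hk : 2 ≤ k) (h : AutomaticMsd k a) : Rep k a := by
  obtain ⟨σ, hσ, δ, s, out, h⟩ := h
  obtain ⟨q, j, p, hp, hj, hf⟩ := pigeon hk (fun q j => fun t : σ => (pad k q j).reverse.foldl δ t)
  refine ⟨q, j, p, hp, fun i hi => ?_⟩
  rw [h, h, digits_pad hk hi (by omega), digits_pad hk hi hj, List.reverse_append,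
    List.reverse_append, List.foldl_append, List.foldl_append]
  have := congrFun hf ((Nat.digits k i).reverse.foldl δ s)
  exact congrArg out this

theorem rep_of_kernel {k : ℕ} {a : ℕ → ℕ} (hk : 2 ≤ k) (h : (kernel k a).Finite) : Rep k a := by
  classical
  have hfin : Finite (kernel k a) := h
  have h0 : (fun n => a (k ^ 0 * n + 0)) ∈ kernel k a := ⟨0, 0, by simp, rfl⟩
  obtain ⟨q, j, p, hp, hj, hf⟩ := pigeon (τ := kernel k a) hk
    (fun q j => if hj : j < k ^ q then ⟨fun n => a (k ^ q * n + j), q, j, hj, rfl⟩ else ⟨_, h0⟩)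
  refine ⟨q, j, p, hp, fun i _ => ?_⟩
  have hj0 : j < k ^ q := by omega
  simp only [dif_pos hj, dif_pos hj0, Subtype.mk.injEq] at hf
  exact congrFun hf i

theorem xw_eq (n : ℕ) : xw n = word n := by
  induction n with
  | zero => rfl
  | succ n ih => rw [xw, word, ih]

theorem isX_iff {a : ℕ → ℕ} : IsX a ↔ a = b := by
  constructor
  · intro h
    refine eq_b fun n i hi => ?_
    have hi' : i < (xw n).length := by rw [xw_eq]; exact hi
    rw [h n i hi']
    simp only [xw_eq]
  · rintro rfl n i hi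
    have hi' : i < (word n).length := by rw [← xw_eq]; exact hi
    rw [b_word n i hi']
    simp only [xw_eq]

theorem result : (∃! a : ℕ → ℕ, IsX a) ∧ ∀ a : ℕ → ℕ, IsX a → ∀ k : ℕ, 2 ≤ k →
    ¬ AutomaticMsd k a ∧ ¬ AutomaticLsd k a ∧ ¬ (kernel k a).Finite := by
  refine ⟨⟨b, isX_iff.2 rfl, fun a ha => isX_iff.1 ha⟩, ?_⟩
  intro a ha k hk
  obtain rfl := isX_iff.1 ha
  exact ⟨fun h => not_rep hk (rep_of_msd hk h), fun h => not_rep hk (rep_of_lsd hk h),
    fun h => not_rep hk (rep_of_kernel hk h)⟩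

end Pool.Agent.Results.MP_ad6ded_lc.NotAutomatic
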